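import Pool.Agent.Lib_helper32.EvenHomeo.SpaceCoordDefs

/-!
# PHICONT

Continuity of the coordinate map to the one point compactification.
-/

open Set Metric Topology Filter

namespace Pool.Agent.EvenHomeo

namespace SpaceCoord

variable {k : ℕ}

/-- the finite branch of `Phi` -/
noncomputable def phiTup (f₁ f₂ : ℂ) (r x : ℝ) (w : F_ k) : N_ k :=
  (f₁.im / (r - f₁.re), f₂ / ((r - f₁.re : ℝ) : ℂ), x / r, (r⁻¹ : ℝ) • w)

theorem Phi_of_ne {f₁ f₂ : ℂ} {r x : ℝ} {w : F_ k} (h : r ≠ f₁.re) :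
    Phi f₁ f₂ r x w = (phiTup f₁ f₂ r x w : OnePoint (N_ k)) := if_neg h

theorem Phi_of_eq {f₁ f₂ : ℂ} {r x : ℝ} {w : F_ k} (h : r = f₁.re) :
    Phi f₁ f₂ r x w = OnePoint.infty := if_pos h

theorem phi_re_bounds {f₁ f₂ : ℂ} {r : ℝ} (h : ‖f₁‖ ^ 2 + ‖f₂‖ ^ 2 = r ^ 2) (hr : 0 ≤ r) :
    -r ≤ f₁.re ∧ f₁.re ≤ r := by
  have h1 : |f₁.re| ≤ ‖f₁‖ := Complex.abs_re_le_norm f₁
  have h2 : ‖f₁‖ ≤ r := abs_le_of_sq_le_sq' (by nlinarith [sq_nonneg ‖f₂‖]) hr |>.2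
  exact abs_le.1 (h1.trans h2)

theorem phi_pos {f₁ f₂ : ℂ} {r : ℝ} (h : ‖f₁‖ ^ 2 + ‖f₂‖ ^ 2 = r ^ 2) (hr : 0 ≤ r)
    (hne : r ≠ f₁.re) : 0 < r ∧ 0 < r - f₁.re := by
  obtain ⟨h1, h2⟩ := phi_re_bounds h hr
  have h3 : 0 < r - f₁.re := sub_pos.2 (lt_of_le_of_ne h2 hne.symm)
  exact ⟨by linarith, h3⟩

theorem phiTup_norm1 (f₁ f₂ : ℂ) (r x : ℝ) (w : F_ k) :
    ‖f₁.im / (r - f₁.re)‖ ≤ ‖phiTup f₁ f₂ r x w‖ := norm_fst_le (phiTup f₁ f₂ r x w)

theorem phiTup_norm2 (f₁ f₂ : ℂ) (r x : ℝ) (w : F_ k) :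
    ‖f₂ / ((r - f₁.re : ℝ) : ℂ)‖ ≤ ‖phiTup f₁ f₂ r x w‖ :=
  (norm_fst_le (phiTup f₁ f₂ r x w).2).trans (norm_snd_le (phiTup f₁ f₂ r x w))

theorem phiTup_norm3 (f₁ f₂ : ℂ) (r x : ℝ) (w : F_ k) :
    ‖x / r‖ ≤ ‖phiTup f₁ f₂ r x w‖ :=
  ((norm_fst_le (phiTup f₁ f₂ r x w).2.2).trans (norm_snd_le (phiTup f₁ f₂ r x w).2)).trans
    (norm_snd_le (phiTup f₁ f₂ r x w))

theorem phiTup_norm4 (f₁ f₂ : ℂ) (r x : ℝ) (w : F_ k) :
    ‖(r⁻¹ : ℝ) • w‖ ≤ ‖phiTup f₁ f₂ r x w‖ :=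
  ((norm_snd_le (phiTup f₁ f₂ r x w).2.2).trans (norm_snd_le (phiTup f₁ f₂ r x w).2)).trans
    (norm_snd_le (phiTup f₁ f₂ r x w))

theorem phiTup_big1 {f₁ f₂ : ℂ} {r x : ℝ} {w : F_ k} (h : ‖f₁‖ ^ 2 + ‖f₂‖ ^ 2 = r ^ 2)
    (hr : 0 ≤ r) (hne : r ≠ f₁.re) {R : ℝ}
    (hlt : 2 * R ^ 2 * (r - f₁.re) < r + f₁.re) : R < ‖phiTup f₁ f₂ r x w‖ := by
  obtain ⟨-, hD⟩ := phi_pos h hr hne
  by_contra hcon
  push Not at hcon
  have h1 := (phiTup_norm1 f₁ f₂ r x w).trans hcon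
  have h2 := (phiTup_norm2 f₁ f₂ r x w).trans hcon
  rw [norm_div, Real.norm_of_nonneg hD.le, div_le_iff₀ hD, Real.norm_eq_abs] at h1
  rw [norm_div, Complex.norm_real, Real.norm_of_nonneg hD.le, div_le_iff₀ hD] at h2
  have h3 : f₁.im ^ 2 ≤ (R * (r - f₁.re)) ^ 2 := by
    rw [← sq_abs]
    exact pow_le_pow_left₀ (abs_nonneg _) h1 2
  have h4 : ‖f₂‖ ^ 2 ≤ (R * (r - f₁.re)) ^ 2 := pow_le_pow_left₀ (norm_nonneg _) h2 2
  have h5 : ‖f₁‖ ^ 2 = f₁.re ^ 2 + f₁.im ^ 2 := by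
    rw [Complex.sq_norm, Complex.normSq_apply]
    ring
  have h6 : (r - f₁.re) * (r + f₁.re) ≤ (r - f₁.re) * (2 * R ^ 2 * (r - f₁.re)) := by
    nlinarith
  have h7 := le_of_mul_le_mul_left h6 hD
  linarith

theorem cwa_phiTup {Z : Type} [TopologicalSpace Z] {S : Set Z} {a : Z} {f₁ f₂ : Z → ℂ}
    {r x : Z → ℝ} {w : Z → F_ k} (h1 : ContinuousWithinAt f₁ S a)
    (h2 : ContinuousWithinAt f₂ S a) (hr : ContinuousWithinAt r S a)
    (hx : ContinuousWithinAt x S a) (hw : ContinuousWithinAt w S a)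
    (hD : r a - (f₁ a).re ≠ 0) (hr0 : r a ≠ 0) :
    ContinuousWithinAt (fun z => phiTup (f₁ z) (f₂ z) (r z) (x z) (w z)) S a := by
  have hre : ContinuousWithinAt (fun z => (f₁ z).re) S a :=
    Complex.continuous_re.continuousAt.comp_continuousWithinAt h1
  have him : ContinuousWithinAt (fun z => (f₁ z).im) S a :=
    Complex.continuous_im.continuousAt.comp_continuousWithinAt h1
  have hDc : ContinuousWithinAt (fun z => r z - (f₁ z).re) S a := hr.sub hre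
  have hDc' : ContinuousWithinAt (fun z => ((r z - (f₁ z).re : ℝ) : ℂ)) S a :=
    Complex.continuous_ofReal.continuousAt.comp_continuousWithinAt hDc
  unfold phiTup
  refine (him.div hDc hD).prodMk ((h2.div hDc' ?_).prodMk ((hx.div hr hr0).prodMk ?_))
  · exact_mod_cast hD
  · exact (hr.inv₀ hr0).smul hw

/-- PHICONT -/
theorem phiCont (k : ℕ) : PhiCont_Stmt k := by
  intro Z _ S a f₁ f₂ r x w ha h1 h2 hr hx hw hS hpos h0
  have hre : ContinuousWithinAt (fun z => (f₁ z).re) S a :=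
    Complex.continuous_re.continuousAt.comp_continuousWithinAt h1
  by_cases hne : r a = (f₁ a).re
  · have key : ∀ R : ℝ, ∀ᶠ z in 𝓝[S] a, r z ≠ (f₁ z).re →
        R < ‖phiTup (f₁ z) (f₂ z) (r z) (x z) (w z)‖ := by
      intro R
      by_cases hra : r a = 0
      · rcases h0 hra with hxa | hwa
        · have hc : ContinuousWithinAt (fun z => R * r z) S a := continuousWithinAt_const.mul hr
          have hlt : R * r a < |x a| := by
            rw [hra, mul_zero]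
            exact abs_pos.2 hxa
          have hev : ∀ᶠ z in 𝓝[S] a, R * r z < |x z| :=
            Filter.Tendsto.eventually_lt hc hx.abs hlt
          filter_upwards [hev, self_mem_nhdsWithin] with z hz hzS hzne
          obtain ⟨hr1, -⟩ := phi_pos (hS z hzS) (hpos z hzS) hzne
          refine lt_of_lt_of_le ?_ (phiTup_norm3 _ _ _ _ _)
          rw [norm_div, Real.norm_of_nonneg hr1.le, lt_div_iff₀ hr1, Real.norm_eq_abs]
          exact hz
        · have hc : ContinuousWithinAt (fun z => R * r z) S a := continuousWithinAt_const.mul hr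
          have hlt : R * r a < ‖w a‖ := by
            rw [hra, mul_zero]
            exact norm_pos_iff.2 hwa
          have hev : ∀ᶠ z in 𝓝[S] a, R * r z < ‖w z‖ :=
            Filter.Tendsto.eventually_lt hc hw.norm hlt
          filter_upwards [hev, self_mem_nhdsWithin] with z hz hzS hzne
          obtain ⟨hr1, -⟩ := phi_pos (hS z hzS) (hpos z hzS) hzne
          refine lt_of_lt_of_le ?_ (phiTup_norm4 _ _ _ _ _)
          rw [norm_smul, norm_inv, Real.norm_of_nonneg hr1.le, inv_mul_eq_div,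
            lt_div_iff₀ hr1]
          exact hz
      · have hra' : 0 < r a := lt_of_le_of_ne (hpos a ha) (Ne.symm hra)
        have hc : ContinuousWithinAt (fun z => 2 * R ^ 2 * (r z - (f₁ z).re)) S a :=
          continuousWithinAt_const.mul (hr.sub hre)
        have hc' : ContinuousWithinAt (fun z => r z + (f₁ z).re) S a := hr.add hre
        have hlt : 2 * R ^ 2 * (r a - (f₁ a).re) < r a + (f₁ a).re := by
          rw [← hne, sub_self, mul_zero]
          linarith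
        have hev : ∀ᶠ z in 𝓝[S] a, 2 * R ^ 2 * (r z - (f₁ z).re) < r z + (f₁ z).re :=
          Filter.Tendsto.eventually_lt hc hc' hlt
        filter_upwards [hev, self_mem_nhdsWithin] with z hz hzS hzne
        exact phiTup_big1 (hS z hzS) (hpos z hzS) hzne hz
    show Tendsto _ (𝓝[S] a) (𝓝 (Phi (f₁ a) (f₂ a) (r a) (x a) (w a)))
    rw [Phi_of_eq hne, OnePoint.hasBasis_nhds_infty.tendsto_right_iff]
    rintro K ⟨hK1, hK2⟩
    obtain ⟨R, hR⟩ := hK2.isBounded.exists_norm_le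
    filter_upwards [key R] with z hz
    by_cases hz' : r z = (f₁ z).re
    · right
      exact Phi_of_eq hz'
    · left
      rw [Phi_of_ne hz']
      exact ⟨_, fun hmem => absurd (hR _ hmem) (not_le.2 (hz hz')), rfl⟩
  · obtain ⟨hr1, hD⟩ := phi_pos (hS a ha) (hpos a ha) hne
    have hc := cwa_phiTup h1 h2 hr hx hw hD.ne' hr1.ne'
    have hc' : ContinuousWithinAt
        (fun z => ((phiTup (f₁ z) (f₂ z) (r z) (x z) (w z) : N_ k) : OnePoint (N_ k))) S a :=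
      OnePoint.continuous_coe.continuousAt.comp_continuousWithinAt hc
    have hDc : ContinuousWithinAt (fun z => r z - (f₁ z).re) S a := hr.sub hre
    have hev : ∀ᶠ z in 𝓝[S] a, r z - (f₁ z).re ≠ 0 := hDc.eventually_ne hD.ne'
    refine hc'.congr_of_eventuallyEq ?_ (Phi_of_ne hne)
    filter_upwards [hev] with z hz
    exact Phi_of_ne (sub_ne_zero.1 hz)

end SpaceCoord

end Pool.Agent.EvenHomeo
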