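import Mathlib
import Pool.Agent.Lib_helper30.EvenHomeo.Defs

/-!
# TRANSPORT

Transport of a compactly supported bijection through an open embedding of an open set.
-/

open Set Metric Topology Filter

namespace Pool.Agent.EvenHomeo

section TransportAux

variable {A Z : Type}

open Classical in
/-- The transported map. -/
noncomputable def transportMap (g : A → Z) (S : Set A) (τ : A → A) (z : Z) : Z :=
  if h : ∃ x, x ∈ S ∧ g x = z then g (τ h.choose) else z

theorem transportMap_apply (g : A → Z) (S : Set A) (τ : A → A) (hinj : InjOn g S) {x : A}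
    (hx : x ∈ S) : transportMap g S τ (g x) = g (τ x) := by
  have h : ∃ x', x' ∈ S ∧ g x' = g x := ⟨x, hx, rfl⟩
  have e : h.choose = x := hinj h.choose_spec.1 hx h.choose_spec.2
  rw [transportMap, dif_pos h, e]

theorem transportMap_of_notMem (g : A → Z) (S : Set A) (τ : A → A) {z : Z}
    (hz : z ∉ g '' S) : transportMap g S τ z = z := by
  rw [transportMap, dif_neg]
  rintro ⟨x, hx, rfl⟩
  exact hz ⟨x, hx, rfl⟩

theorem transportMap_off (g : A → Z) (S K : Set A) (τ : A → A) (hinj : InjOn g S)
    (hfix : ∀ x, x ∉ K → τ x = x) {z : Z} (hz : z ∉ g '' K) : transportMap g S τ z = z := by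
  by_cases h : z ∈ g '' S
  · obtain ⟨x, hx, rfl⟩ := h
    rw [transportMap_apply g S τ hinj hx, hfix x (fun hK => hz ⟨x, hK, rfl⟩)]
  · exact transportMap_of_notMem g S τ h

theorem transport_mapsTo (S K : Set A) (τ : A → A) (hKS : K ⊆ S) (hinj : Function.Injective τ)
    (hfix : ∀ x, x ∉ K → τ x = x) {x : A} (hx : x ∈ S) : τ x ∈ S := by
  by_cases hK : x ∈ K
  · by_contra h
    have h1 : τ x ∉ K := fun h' => h (hKS h')
    have h2 : τ x = x := hinj (hfix _ h1)
    rw [h2] at h
    exact h hx
  · rw [hfix x hK]; exact hx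

theorem transportMap_comp (g : A → Z) (S K : Set A) (τ τ' : A → A) (hKS : K ⊆ S)
    (hg : InjOn g S) (hinj : Function.Injective τ)
    (hfix : ∀ x, x ∉ K → τ x = x) (h' : ∀ x, τ' (τ x) = x) (z : Z) :
    transportMap g S τ' (transportMap g S τ z) = z := by
  by_cases h : z ∈ g '' S
  · obtain ⟨x, hx, rfl⟩ := h
    rw [transportMap_apply g S τ hg hx,
      transportMap_apply g S τ' hg (transport_mapsTo S K τ hKS hinj hfix hx), h']
  · rw [transportMap_of_notMem g S τ h, transportMap_of_notMem g S τ' h]

theorem transportMap_continuous [TopologicalSpace A] [TopologicalSpace Z] [T2Space Z]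
    (g : A → Z) (S K : Set A) (τ : A → A) (hS : IsOpen S) (hop : IsOpenMap g)
    (hg : ContinuousOn g S) (hgi : InjOn g S) (hK : IsCompact K) (hKS : K ⊆ S)
    (hτ : Continuous τ) (hτi : Function.Injective τ) (hfix : ∀ x, x ∉ K → τ x = x) :
    Continuous (transportMap g S τ) := by
  rw [continuous_iff_continuousAt]
  intro z
  by_cases hz : z ∈ g '' S
  · obtain ⟨x, hx, rfl⟩ := hz
    have h1 : Tendsto (transportMap g S τ) (map g (𝓝 x)) (𝓝 (transportMap g S τ (g x))) := by
      rw [tendsto_map'_iff, transportMap_apply g S τ hgi hx]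
      have hxS : τ x ∈ S := transport_mapsTo S K τ hKS hτi hfix hx
      have h2 : ContinuousAt g (τ x) := hg.continuousAt (hS.mem_nhds hxS)
      have h3 : Tendsto (g ∘ τ) (𝓝 x) (𝓝 (g (τ x))) := h2.tendsto.comp hτ.continuousAt.tendsto
      refine h3.congr' ?_
      filter_upwards [hS.mem_nhds hx] with y hy
      exact (transportMap_apply g S τ hgi hy).symm
    exact h1.mono_left (hop.nhds_le x)
  · have hcl : IsClosed (g '' K) := (hK.image_of_continuousOn (hg.mono hKS)).isClosed
    have hzK : z ∉ g '' K := fun h => hz (image_mono hKS h)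
    have h1 : (transportMap g S τ) =ᶠ[𝓝 z] id := by
      filter_upwards [hcl.isOpen_compl.mem_nhds hzK] with y hy
      exact transportMap_off g S K τ hgi hfix hy
    exact (continuousAt_congr h1).2 continuousAt_id

end TransportAux

/-- TRANSPORT -/
theorem transport : Transport_Stmt := by
  intro A Z _ _ _ _ g S K τ hS hop hg hgi hK hKS hτ hτb hfix
  have hτ' : ∀ x, x ∉ K → (Equiv.ofBijective τ hτb).symm x = x := by
    intro x hx
    rw [Equiv.symm_apply_eq]
    exact (hfix x hx).symm
  let E : Z ≃ Z :=
    { toFun := transportMap g S τ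
      invFun := transportMap g S (Equiv.ofBijective τ hτb).symm
      left_inv := transportMap_comp g S K τ _ hKS hgi hτb.1 hfix
        (fun x => (Equiv.ofBijective τ hτb).symm_apply_apply x)
      right_inv := transportMap_comp g S K _ τ hKS hgi
        (Equiv.ofBijective τ hτb).symm.injective hτ'
        (fun x => (Equiv.ofBijective τ hτb).apply_symm_apply x) }
  have hc : Continuous E :=
    transportMap_continuous g S K τ hS hop hg hgi hK hKS hτ hτb.1 hfix
  refine ⟨Continuous.homeoOfEquivCompactToT2 hc, ?_, ?_⟩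
  · intro x hx
    exact transportMap_apply g S τ hgi hx
  · intro z hz
    exact transportMap_off g S K τ hgi hfix hz

end Pool.Agent.EvenHomeo
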