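import Mathlib
import Pool.Agent.Lib_helper30.EvenHomeo.Defs

/-!
# COH: the cohomological equation of the thinning step
-/

set_option autoImplicit false

open Set

namespace Pool.Agent.EvenHomeo.CohM

open Pool.Agent.EvenHomeo

theorem cr_fract (x : ℝ) : cr x = Int.fract (x + 1 / 2) - 1 / 2 := by
  unfold cr
  rw [round_eq, Int.fract]
  ring

theorem cr_ge (x : ℝ) : -(1 / 2) ≤ cr x := by
  rw [cr_fract]
  have := Int.fract_nonneg (x + 1 / 2)
  linarith

theorem cr_lt (x : ℝ) : cr x < 1 / 2 := by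
  rw [cr_fract]
  have := Int.fract_lt_one (x + 1 / 2)
  linarith

theorem cr_add_int (x : ℝ) (n : ℤ) : cr (x + n) = cr x := by
  rw [cr_fract, cr_fract, show x + n + 1 / 2 = x + 1 / 2 + n by ring, Int.fract_add_intCast]

theorem cr_add_one (x : ℝ) : cr (x + 1) = cr x := by
  have := cr_add_int x 1
  simpa using this

theorem cr_of_mem {y : ℝ} (n : ℤ) (h1 : -(1 / 2) ≤ y) (h2 : y < 1 / 2) : cr (y + n) = y := by
  rw [cr_add_int, cr_fract, Int.fract_eq_self.2 ⟨by linarith, by linarith⟩]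
  ring

theorem round_of_mem {y : ℝ} (n : ℤ) (h1 : -(1 / 2) ≤ y) (h2 : y < 1 / 2) :
    round (y + n) = n := by
  rw [round_eq, show y + n + 1 / 2 = (y + 1 / 2) + n by ring, Int.floor_add_intCast,
    Int.floor_eq_zero_iff.2 ⟨by linarith, by linarith⟩, zero_add]

/-- the clamp function -/
noncomputable def cl (y : ℝ) : ℝ := max (-1) (min 1 y)

theorem tw_eq (w x : ℝ) : tw w x = (1 + cl (cr x / w)) / 2 := rfl

theorem cl_ge (y : ℝ) : -1 ≤ cl y := le_max_left _ _

theorem cl_le (y : ℝ) : cl y ≤ 1 := max_le (by norm_num) (min_le_left _ _)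

theorem cl_mono {x y : ℝ} (h : x ≤ y) : cl x ≤ cl y :=
  max_le_max le_rfl (min_le_min le_rfl h)

theorem cl_of_ge {y : ℝ} (h : 1 ≤ y) : cl y = 1 := by
  unfold cl
  rw [min_eq_left h]
  norm_num

theorem cl_of_le {y : ℝ} (h : y ≤ -1) : cl y = -1 := by
  unfold cl
  rw [min_eq_right (by linarith), max_eq_left h]

theorem cl_neg (y : ℝ) : cl (-y) = -cl y := by
  unfold cl
  rcases le_total y (-1) with h | h
  · rw [min_eq_left (by linarith : (1 : ℝ) ≤ -y), min_eq_right (by linarith : y ≤ 1),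
      max_eq_left h]
    norm_num
  · rcases le_total y 1 with h' | h'
    · rw [min_eq_right (by linarith : -y ≤ 1), max_eq_right (by linarith : -1 ≤ -y),
        min_eq_right h', max_eq_right h]
    · rw [min_eq_right (by linarith : -y ≤ 1), max_eq_left (by linarith : -y ≤ -1),
        min_eq_left h']
      norm_num

theorem cl_cont : Continuous cl := by
  unfold cl
  fun_prop

theorem tw_ge (w x : ℝ) : 0 ≤ tw w x := by
  rw [tw_eq]
  have := cl_ge (cr x / w)
  linarith

theorem tw_le (w x : ℝ) : tw w x ≤ 1 := by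
  rw [tw_eq]
  have := cl_le (cr x / w)
  linarith

/-- the monotone lift of the twist -/
noncomputable def TT (w x : ℝ) : ℝ := round x + tw w x

theorem TT_mono {w : ℝ} (hw : 0 < w) {x y : ℝ} (h : x ≤ y) : TT w x ≤ TT w y := by
  have h1 : round x ≤ round y := by
    rw [round_eq, round_eq]
    exact Int.floor_le_floor (by linarith)
  rcases h1.lt_or_eq with h2 | h2
  · have h3 : ((round x : ℤ) : ℝ) + 1 ≤ round y := by exact_mod_cast h2
    have h4 := tw_le w x
    have h5 := tw_ge w y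
    unfold TT
    linarith
  · unfold TT
    rw [h2, tw_eq, tw_eq]
    have h3 : cr x ≤ cr y := by
      unfold cr
      rw [h2]
      linarith
    have h4 := cl_mono (div_le_div_of_nonneg_right h3 hw.le)
    linarith

theorem TT_add_one (w x : ℝ) : TT w (x + 1) = TT w x + 1 := by
  unfold TT
  rw [round_add_one, tw_eq, tw_eq, cr_add_one]
  push_cast
  ring

theorem TT_neg {w : ℝ} (hw : 0 < w) (hw2 : w ≤ 1 / 2) (x : ℝ) : TT w (-x) = 1 - TT w x := by
  have hx : x = cr x + round x := by unfold cr; ring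
  have h1 := cr_ge x
  have h2 := cr_lt x
  rcases h1.lt_or_eq with h3 | h3
  · have h4 : -x = -cr x + ((-round x : ℤ) : ℝ) := by
      push_cast
      linarith
    have h5 : round (-x) = -round x := by
      rw [h4, round_of_mem _ (by linarith) (by linarith)]
    have h6 : cr (-x) = -cr x := by
      rw [h4, cr_of_mem _ (by linarith) (by linarith)]
    unfold TT
    rw [tw_eq, tw_eq, h5, h6, neg_div, cl_neg]
    push_cast
    ring
  · have h4 : -x = -(1 / 2) + ((1 - round x : ℤ) : ℝ) := by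
      push_cast
      linarith
    have h5 : round (-x) = 1 - round x := by
      rw [h4, round_of_mem _ (by linarith) (by linarith)]
    have h6 : cr (-x) = -(1 / 2) := by
      rw [h4, cr_of_mem _ (by linarith) (by linarith)]
    have h7 : cl (-(1 / 2) / w) = -1 := by
      apply cl_of_le
      rw [div_le_iff₀ hw]
      linarith
    unfold TT
    rw [tw_eq, tw_eq, h5, h6, ← h3, h7]
    push_cast
    ring

/-- sum over the translates by `1/q` -/
noncomputable def SS (q : ℕ) (w θ : ℝ) : ℝ :=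
  ∑ k ∈ Finset.range q, TT w (θ + (k : ℝ) / q)

theorem SS_mono {q : ℕ} {w : ℝ} (hw : 0 < w) {x y : ℝ} (h : x ≤ y) : SS q w x ≤ SS q w y :=
  Finset.sum_le_sum fun k _ => TT_mono hw (by linarith)

theorem SS_add {q : ℕ} (hq : 1 ≤ q) (w θ : ℝ) : SS q w (θ + 1 / q) = SS q w θ + 1 := by
  have hq0 : (q : ℝ) ≠ 0 := by positivity
  have h := Finset.sum_range_succ' (fun k : ℕ => TT w (θ + (k : ℝ) / q)) q
  have h' := Finset.sum_range_succ (fun k : ℕ => TT w (θ + (k : ℝ) / q)) q
  have h1 : SS q w (θ + 1 / q) = ∑ k ∈ Finset.range q, TT w (θ + ((k + 1 : ℕ) : ℝ) / q) := by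
    unfold SS
    refine Finset.sum_congr rfl fun k _ => ?_
    congr 1
    push_cast
    ring
  have h2 : TT w (θ + (q : ℝ) / q) = TT w θ + 1 := by
    rw [div_self hq0, TT_add_one]
  rw [h1]
  simp only [Nat.cast_zero, zero_div, add_zero] at h
  rw [h', h2] at h
  unfold SS
  linarith

theorem SS_zero {q : ℕ} (hq : 1 ≤ q) {w : ℝ} (hw : 0 < w) (hw2 : w ≤ 1 / 2) :
    SS q w (-(((q : ℝ) - 1) / (2 * q))) = q / 2 := by
  have hq0 : (q : ℝ) ≠ 0 := by positivity
  set t : ℝ := -(((q : ℝ) - 1) / (2 * q)) with ht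
  have h := Finset.sum_range_reflect (fun k : ℕ => TT w (t + (k : ℝ) / q)) q
  have h1 : ∑ k ∈ Finset.range q, TT w (t + ((q - 1 - k : ℕ) : ℝ) / q)
      = ∑ k ∈ Finset.range q, (1 - TT w (t + (k : ℝ) / q)) := by
    refine Finset.sum_congr rfl fun k hk => ?_
    rw [← TT_neg hw hw2]
    congr 1
    have hk' : k < q := Finset.mem_range.1 hk
    have h2 : ((q - 1 - k : ℕ) : ℝ) = (q : ℝ) - 1 - k := by
      rw [Nat.cast_sub (by omega), Nat.cast_sub hq]
      simp
    rw [h2, ht]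
    field_simp
    ring
  rw [h1, Finset.sum_sub_distrib] at h
  simp only [Finset.sum_const, Finset.card_range, nsmul_eq_mul, mul_one] at h
  unfold SS
  linarith

theorem SS_per {q : ℕ} (hq : 1 ≤ q) (w : ℝ) :
    Function.Periodic (fun θ => SS q w θ - q * θ) (1 / (q : ℝ)) := by
  intro θ
  have hq0 : (q : ℝ) ≠ 0 := by positivity
  show SS q w (θ + 1 / q) - q * (θ + 1 / q) = SS q w θ - q * θ
  rw [SS_add hq]
  field_simp
  ring

theorem SS_bounds {q : ℕ} (hq : 1 ≤ q) {w : ℝ} (hw : 0 < w) (hw2 : w ≤ 1 / 2) (θ : ℝ) :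
    (q : ℝ) / 2 + ⌊(q : ℝ) * (θ + ((q : ℝ) - 1) / (2 * q))⌋ ≤ SS q w θ ∧
    SS q w θ ≤ (q : ℝ) / 2 + ⌊(q : ℝ) * (θ + ((q : ℝ) - 1) / (2 * q))⌋ + 1 := by
  have hq0 : (0 : ℝ) < q := by positivity
  set t : ℝ := -(((q : ℝ) - 1) / (2 * q)) with ht
  set m : ℤ := ⌊(q : ℝ) * (θ + ((q : ℝ) - 1) / (2 * q))⌋ with hm
  have h1 : SS q w (t + m * (1 / (q : ℝ))) = q / 2 + m := by
    have := (SS_per hq w).int_mul m t
    rw [SS_zero hq hw hw2] at this
    have h2 : (q : ℝ) * (t + m * (1 / (q : ℝ))) = q * t + m := by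
      field_simp
    linarith
  have hle : (m : ℝ) ≤ (q : ℝ) * (θ - t) := by
    have := Int.floor_le ((q : ℝ) * (θ + ((q : ℝ) - 1) / (2 * q)))
    rw [ht, sub_neg_eq_add]
    exact this
  have hlt : (q : ℝ) * (θ - t) ≤ m + 1 := by
    have := (Int.lt_floor_add_one ((q : ℝ) * (θ + ((q : ℝ) - 1) / (2 * q)))).le
    rw [ht, sub_neg_eq_add]
    exact this
  constructor
  · rw [← h1]
    apply SS_mono hw
    have : (m : ℝ) * (1 / q) ≤ θ - t := by
      rw [mul_one_div, div_le_iff₀ hq0]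
      linarith
    linarith
  · have h3 : SS q w (t + m * (1 / (q : ℝ)) + 1 / q) = q / 2 + m + 1 := by
      rw [SS_add hq, h1]
    rw [← h3]
    apply SS_mono hw
    have : θ - t ≤ (m + 1 : ℝ) * (1 / q) := by
      rw [mul_one_div, le_div_iff₀ hq0]
      linarith
    linarith

theorem SS_diff {q : ℕ} (hq : 1 ≤ q) {w w' : ℝ} (hw : 0 < w) (hw2 : w ≤ 1 / 2) (hw' : 0 < w')
    (hw2' : w' ≤ 1 / 2) (θ : ℝ) : |SS q w θ - SS q w' θ| ≤ 1 := by
  have h1 := SS_bounds hq hw hw2 θ
  have h2 := SS_bounds hq hw' hw2' θ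
  rw [abs_le]
  constructor <;> linarith [h1.1, h1.2, h2.1, h2.2]

/-! ### the functions -/

/-- the width -/
noncomputable def m1 (lam lam' r : ℝ) : ℝ := max lam' (min lam r)

/-- the difference of the twists -/
noncomputable def sg (lam lam' r θ : ℝ) : ℝ := tw (m1 lam lam' r) θ - tw lam' θ

section

variable {lam lam' : ℝ} {p q : ℕ}

theorem m1_pos (h : 0 < lam') (r : ℝ) : 0 < m1 lam lam' r := lt_of_lt_of_le h (le_max_left _ _)

theorem m1_le (h1 : lam' ≤ lam) (h2 : lam ≤ 1 / 20) (r : ℝ) : m1 lam lam' r ≤ 1 / 20 :=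
  max_le (h1.trans h2) ((min_le_left _ _).trans h2)

theorem m1_cont : Continuous (m1 lam lam') := by
  unfold m1
  fun_prop

theorem sg_low {r : ℝ} (h1 : lam' ≤ lam) (h : r ≤ lam') (θ : ℝ) : sg lam lam' r θ = 0 := by
  unfold sg m1
  rw [max_eq_left ((min_le_right _ _).trans h), sub_self]

theorem sg_D (h0 : 0 < lam') (h1 : lam' ≤ lam) (r θ : ℝ) :
    D lam r θ = D lam' r θ + ((sg lam lam' r θ : ℝ) : T) := by
  by_cases hr : r ≤ 0
  · rw [sg_low h1 (hr.trans h0.le)]
    unfold D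
    rw [if_pos hr, if_pos hr]
    simp
  · unfold D
    rw [if_neg hr, if_neg hr, ← AddCircle.coe_add]
    congr 1
    unfold sg m1
    rcases le_total r lam' with h2 | h2
    · rw [max_eq_left ((min_le_right _ _).trans h2), min_eq_right (h2.trans h1),
        min_eq_right h2]
      ring
    · rw [max_eq_right (le_min h1 h2), min_eq_left h2]
      ring

theorem sg_add_one (r θ : ℝ) : sg lam lam' r (θ + 1) = sg lam lam' r θ := by
  unfold sg
  rw [tw_eq, tw_eq, tw_eq, tw_eq, cr_add_one]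

theorem sg_TT (r θ : ℝ) : sg lam lam' r θ = TT (m1 lam lam' r) θ - TT lam' θ := by
  unfold sg TT
  ring

theorem comp_cr {F : ℝ → ℝ → ℝ} (hF : Continuous (fun x : ℝ × ℝ => F x.1 x.2))
    (h : ∀ r, F r (-(1 / 2)) = F r (1 / 2)) {s : ℝ × ℝ → ℝ} (hs : Continuous s) :
    Continuous (fun x : ℝ × ℝ => F x.1 (cr (s x))) := by
  have h1 : Continuous (fun x : ℝ × ℝ =>
      (fun (z : ℝ × ℝ) (y : ℝ) => F z.1 (y - 1 / 2)) x (Int.fract (s x + 1 / 2))) := by
    refine ContinuousOn.comp_fract (s := fun x => s x + 1 / 2)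
      (f := fun (z : ℝ × ℝ) (y : ℝ) => F z.1 (y - 1 / 2)) ?_ ?_ ?_
    · apply Continuous.continuousOn
      have h2 : Continuous (fun z : (ℝ × ℝ) × ℝ => (z.1.1, z.2 - 1 / 2)) := by fun_prop
      exact hF.comp h2
    · fun_prop
    · intro z
      show F z.1 (0 - 1 / 2) = F z.1 (1 - 1 / 2)
      have := h z.1
      norm_num at this ⊢
      exact this
  refine h1.congr fun x => ?_
  simp only
  rw [cr_fract]

theorem sg_cont (h0 : 0 < lam') (h1 : lam' ≤ lam) (h2 : lam ≤ 1 / 20) :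
    Continuous (fun x : ℝ × ℝ => sg lam lam' x.1 x.2) := by
  have h := comp_cr (F := fun r y => (1 + cl (y / m1 lam lam' r)) / 2 - (1 + cl (y / lam')) / 2)
    (s := fun x => x.2) ?_ ?_ continuous_snd
  · exact h
  · have h3 : Continuous (fun x : ℝ × ℝ => cl (x.2 / m1 lam lam' x.1)) := by
      apply cl_cont.comp
      apply continuous_snd.div (m1_cont.comp continuous_fst)
      intro x
      exact (m1_pos h0 x.1).ne'
    have h4 : Continuous (fun x : ℝ × ℝ => cl (x.2 / lam')) :=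
      cl_cont.comp (continuous_snd.div_const _)
    fun_prop
  · intro r
    have hm := m1_pos (lam := lam) h0 r
    have hm' := m1_le h1 h2 r
    have e1 : cl (-(1 / 2) / m1 lam lam' r) = -1 := by
      apply cl_of_le
      rw [div_le_iff₀ hm]
      linarith
    have e2 : cl (1 / 2 / m1 lam lam' r) = 1 := by
      apply cl_of_ge
      rw [le_div_iff₀ hm]
      linarith
    have e3 : cl (-(1 / 2) / lam') = -1 := by
      apply cl_of_le
      rw [div_le_iff₀ h0]
      linarith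
    have e4 : cl (1 / 2 / lam') = 1 := by
      apply cl_of_ge
      rw [le_div_iff₀ h0]
      linarith
    show (1 + cl (-(1 / 2) / m1 lam lam' r)) / 2 - (1 + cl (-(1 / 2) / lam')) / 2
      = (1 + cl (1 / 2 / m1 lam lam' r)) / 2 - (1 + cl (1 / 2 / lam')) / 2
    rw [e1, e2, e3, e4]
    norm_num

/-- the mean value -/
noncomputable def vv (lam lam' : ℝ) (q : ℕ) (r θ : ℝ) : ℝ :=
  -(1 / (q : ℝ)) * ∑ k ∈ Finset.range q, sg lam lam' r (θ + (k : ℝ) / q)

theorem vv_SS (r θ : ℝ) : vv lam lam' q r θ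
    = -(1 / (q : ℝ)) * (SS q (m1 lam lam' r) θ - SS q lam' θ) := by
  unfold vv SS
  rw [← Finset.sum_sub_distrib]
  simp only [sg_TT]

theorem vv_abs (hq : 1 ≤ q) (h0 : 0 < lam') (h1 : lam' ≤ lam) (h2 : lam ≤ 1 / 20) (r θ : ℝ) :
    |vv lam lam' q r θ| ≤ 1 / (q : ℝ) := by
  have hq0 : (0 : ℝ) < q := by positivity
  rw [vv_SS, abs_mul, abs_neg, abs_of_pos (by positivity)]
  have := SS_diff hq (m1_pos (lam := lam) h0 r) (by have := m1_le h1 h2 r; linarith) h0
    (by linarith) θ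
  calc 1 / (q : ℝ) * |SS q (m1 lam lam' r) θ - SS q lam' θ| ≤ 1 / q * 1 :=
        mul_le_mul_of_nonneg_left this (by positivity)
    _ = 1 / q := mul_one _

theorem vv_per (hq : 1 ≤ q) (r : ℝ) :
    Function.Periodic (vv lam lam' q r) (1 / (q : ℝ)) := by
  intro θ
  rw [vv_SS, vv_SS, SS_add hq, SS_add hq]
  ring

theorem vv_low {r : ℝ} (h1 : lam' ≤ lam) (h : r ≤ lam') (θ : ℝ) : vv lam lam' q r θ = 0 := by
  unfold vv
  rw [Finset.sum_eq_zero fun k _ => sg_low h1 h _, mul_zero]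

theorem vv_cont (h0 : 0 < lam') (h1 : lam' ≤ lam) (h2 : lam ≤ 1 / 20) :
    Continuous (fun x : ℝ × ℝ => vv lam lam' q x.1 x.2) := by
  unfold vv
  apply continuous_const.mul
  apply continuous_finsetSum
  intro k _
  have : Continuous (fun x : ℝ × ℝ => (x.1, x.2 + (k : ℝ) / q)) := by fun_prop
  exact (sg_cont h0 h1 h2).comp this

/-- the cocycle of mean value zero -/
noncomputable def sh (lam lam' : ℝ) (q : ℕ) (r θ : ℝ) : ℝ := sg lam lam' r θ + vv lam lam' q r θ

theorem sh_per_one (hq : 1 ≤ q) (r : ℝ) : Function.Periodic (sh lam lam' q r) 1 := by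
  intro θ
  have hq0 : (q : ℝ) ≠ 0 := by positivity
  have h := (vv_per (lam := lam) (lam' := lam') hq r).nat_mul q θ
  rw [mul_one_div, div_self hq0] at h
  unfold sh
  rw [sg_add_one, h]

theorem sh_sum (hq : 1 ≤ q) (r θ : ℝ) :
    ∑ k ∈ Finset.range q, sh lam lam' q r (θ + (k : ℝ) / q) = 0 := by
  have hq0 : (q : ℝ) ≠ 0 := by positivity
  unfold sh
  rw [Finset.sum_add_distrib]
  have h1 : ∑ k ∈ Finset.range q, vv lam lam' q r (θ + (k : ℝ) / q)
      = q * vv lam lam' q r θ := by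
    rw [Finset.sum_congr rfl (g := fun _ => vv lam lam' q r θ)]
    · simp
    · intro k _
      have h := (vv_per (lam := lam) (lam' := lam') hq r).nat_mul k θ
      rw [mul_one_div] at h
      exact h
  rw [h1]
  unfold vv
  field_simp
  ring

theorem sh_sum' (hq : 1 ≤ q) (hpq : Nat.Coprime p q) (r θ : ℝ) :
    ∑ k ∈ Finset.range q, sh lam lam' q r (θ + (k : ℝ) * ((p : ℝ) / q)) = 0 := by
  have hq0 : (q : ℝ) ≠ 0 := by positivity
  rw [← sh_sum (lam := lam) (lam' := lam') hq r θ]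
  have hinj : Set.InjOn (fun k : ℕ => k * p % q) (Finset.range q : Finset ℕ) := by
    intro a ha b hb hab
    have ha' : a < q := by simpa using ha
    have hb' : b < q := by simpa using hb
    have h1 : a * p ≡ b * p [MOD q] := hab
    have h2 : a ≡ b [MOD q] := Nat.ModEq.cancel_right_of_coprime (by
      rw [Nat.coprime_comm] at hpq; exact hpq) h1
    exact Nat.ModEq.eq_of_lt_of_lt h2 ha' hb'
  have himg : (Finset.range q).image (fun k : ℕ => k * p % q) = Finset.range q := by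
    apply Finset.eq_of_subset_of_card_le
    · intro x hx
      obtain ⟨k, -, rfl⟩ := Finset.mem_image.1 hx
      exact Finset.mem_range.2 (Nat.mod_lt _ (by omega))
    · rw [Finset.card_image_of_injOn hinj]
  have h2 : ∑ k ∈ Finset.range q, sh lam lam' q r (θ + (k : ℝ) / q)
      = ∑ k ∈ (Finset.range q).image (fun k : ℕ => k * p % q),
        sh lam lam' q r (θ + (k : ℝ) / q) := by rw [himg]
  rw [h2, Finset.sum_image hinj]
  refine Finset.sum_congr rfl fun k _ => ?_
  have h3 : θ + (k : ℝ) * ((p : ℝ) / q)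
      = θ + ((k * p % q : ℕ) : ℝ) / q + ((k * p / q : ℕ) : ℝ) * 1 := by
    have h4 : ((k * p : ℕ) : ℝ) = (q : ℝ) * ((k * p / q : ℕ) : ℝ) + ((k * p % q : ℕ) : ℝ) := by
      exact_mod_cast (Nat.div_add_mod (k * p) q).symm
    have h5 : (k : ℝ) * ((p : ℝ) / q) = ((k * p : ℕ) : ℝ) / q := by
      push_cast
      ring
    rw [h5, h4]
    field_simp
    ring
  rw [h3]
  exact (sh_per_one hq r).nat_mul _ _

theorem sh_low {r : ℝ} (h1 : lam' ≤ lam) (h : r ≤ lam') (θ : ℝ) : sh lam lam' q r θ = 0 := by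
  unfold sh
  rw [sg_low h1 h, vv_low h1 h, add_zero]

theorem sh_cont (h0 : 0 < lam') (h1 : lam' ≤ lam) (h2 : lam ≤ 1 / 20) :
    Continuous (fun x : ℝ × ℝ => sh lam lam' q x.1 x.2) :=
  (sg_cont h0 h1 h2).add (vv_cont h0 h1 h2)

/-- the transfer function -/
noncomputable def cc (lam lam' : ℝ) (p q : ℕ) (r θ : ℝ) : ℝ :=
  (1 / (q : ℝ)) * ∑ i ∈ Finset.range q,
    ((i : ℝ) + 1) * sh lam lam' q r (θ + ((i : ℝ) + 1) * ((p : ℝ) / q))

theorem cc_per_one (hq : 1 ≤ q) (r θ : ℝ) : cc lam lam' p q r (θ + 1) = cc lam lam' p q r θ := by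
  unfold cc
  congr 1
  refine Finset.sum_congr rfl fun i _ => ?_
  congr 1
  rw [show θ + 1 + ((i : ℝ) + 1) * ((p : ℝ) / q) = θ + ((i : ℝ) + 1) * ((p : ℝ) / q) + 1 by ring]
  exact sh_per_one hq r _

theorem cc_low {r : ℝ} (h1 : lam' ≤ lam) (h : r ≤ lam') (θ : ℝ) : cc lam lam' p q r θ = 0 := by
  unfold cc
  rw [Finset.sum_eq_zero fun i _ => by rw [sh_low h1 h, mul_zero], mul_zero]

theorem cc_cont (h0 : 0 < lam') (h1 : lam' ≤ lam) (h2 : lam ≤ 1 / 20) :
    Continuous (fun x : ℝ × ℝ => cc lam lam' p q x.1 x.2) := by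
  unfold cc
  apply continuous_const.mul
  apply continuous_finsetSum
  intro i _
  apply continuous_const.mul
  have : Continuous (fun x : ℝ × ℝ => (x.1, x.2 + ((i : ℝ) + 1) * ((p : ℝ) / q))) := by fun_prop
  exact (sh_cont h0 h1 h2).comp this

theorem cc_step (hq : 1 ≤ q) (hpq : Nat.Coprime p q) (r θ : ℝ) :
    cc lam lam' p q r (θ + (p : ℝ) / q) - cc lam lam' p q r θ
      = sh lam lam' q r (θ + (p : ℝ) / q) := by
  have hq0 : (q : ℝ) ≠ 0 := by positivity
  obtain ⟨u, hu⟩ : ∃ u : ℕ → ℝ, ∀ i, u i = sh lam lam' q r (θ + (i : ℝ) * ((p : ℝ) / q)) :=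
    ⟨_, fun _ => rfl⟩
  have h1 : cc lam lam' p q r θ
      = (1 / (q : ℝ)) * ∑ i ∈ Finset.range q, ((i : ℝ) + 1) * u (i + 1) := by
    unfold cc
    congr 1
    refine Finset.sum_congr rfl fun i _ => ?_
    rw [hu]
    push_cast
    rfl
  have h2 : cc lam lam' p q r (θ + (p : ℝ) / q)
      = (1 / (q : ℝ)) * ∑ i ∈ Finset.range q, ((i : ℝ) + 1) * u (i + 2) := by
    unfold cc
    congr 1
    refine Finset.sum_congr rfl fun i _ => ?_
    have e : θ + (p : ℝ) / q + ((i : ℝ) + 1) * ((p : ℝ) / q)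
        = θ + ((i + 2 : ℕ) : ℝ) * ((p : ℝ) / q) := by
      push_cast
      ring
    rw [hu, e]
  have h3 : ∑ i ∈ Finset.range q, u (i + 1) = 0 := by
    rw [← sh_sum' (lam := lam) (lam' := lam') hq hpq r (θ + (p : ℝ) / q)]
    refine Finset.sum_congr rfl fun i _ => ?_
    have e : θ + (p : ℝ) / q + (i : ℝ) * ((p : ℝ) / q)
        = θ + ((i + 1 : ℕ) : ℝ) * ((p : ℝ) / q) := by
      push_cast
      ring
    rw [hu, e]
  have h4 : ∑ i ∈ Finset.range q, (((i : ℝ) + 1) * u (i + 2) - (i : ℝ) * u (i + 1))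
      = q * u (q + 1) := by
    have := Finset.sum_range_sub (fun i : ℕ => (i : ℝ) * u (i + 1)) q
    simp only [Nat.cast_zero, zero_mul, sub_zero] at this
    rw [← this]
    refine Finset.sum_congr rfl fun i _ => ?_
    rw [Nat.cast_add, Nat.cast_one]
  have h5 : u (q + 1) = sh lam lam' q r (θ + (p : ℝ) / q) := by
    have := (sh_per_one (lam := lam) (lam' := lam') hq r).nat_mul p (θ + (p : ℝ) / q)
    have e : θ + (p : ℝ) / q + (p : ℝ) * 1 = θ + ((q + 1 : ℕ) : ℝ) * ((p : ℝ) / q) := by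
      push_cast
      field_simp
      ring
    rw [hu, ← e]
    exact this
  have h6 : ∑ i ∈ Finset.range q, (((i : ℝ) + 1) * u (i + 2) - (i : ℝ) * u (i + 1))
      = ∑ i ∈ Finset.range q, ((i : ℝ) + 1) * u (i + 2)
        - ∑ i ∈ Finset.range q, ((i : ℝ) + 1) * u (i + 1)
        + ∑ i ∈ Finset.range q, u (i + 1) := by
    rw [← Finset.sum_sub_distrib, ← Finset.sum_add_distrib]
    refine Finset.sum_congr rfl fun i _ => ?_
    ring
  rw [h1, h2, ← mul_sub]
  rw [h6, h3, add_zero, h5] at h4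
  rw [h4]
  field_simp

/-- the cut-off -/
noncomputable def chi (x : ℝ) : ℝ := max 0 (min 1 (2 - 8 * |x|))

theorem chi_one {x : ℝ} (h : |x| ≤ 1 / 8) : chi x = 1 := by
  unfold chi
  rw [min_eq_left (by linarith)]
  norm_num

theorem chi_zero {x : ℝ} (h : 1 / 4 ≤ |x|) : chi x = 0 := by
  unfold chi
  rw [min_eq_right (by linarith), max_eq_left (by linarith)]

theorem chi_cont : Continuous chi := by
  unfold chi
  fun_prop

/-- the transfer function, normalised -/
noncomputable def jj (lam lam' : ℝ) (p q : ℕ) (r θ : ℝ) : ℝ :=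
  cc lam lam' p q r θ - chi (cr (q * θ)) * cc lam lam' p q r (cr (q * θ) / q)

theorem jj_cont (h0 : 0 < lam') (h1 : lam' ≤ lam) (h2 : lam ≤ 1 / 20) :
    Continuous (fun x : ℝ × ℝ => jj lam lam' p q x.1 x.2) := by
  unfold jj
  apply (cc_cont (p := p) (q := q) h0 h1 h2).sub
  have hF : Continuous (fun x : ℝ × ℝ =>
      (fun r y => chi y * cc lam lam' p q r (y / q)) x.1 x.2) := by
    have h3 : Continuous (fun x : ℝ × ℝ => (x.1, x.2 / (q : ℝ))) := by fun_prop
    have h4 : Continuous (fun x : ℝ × ℝ => cc lam lam' p q x.1 (x.2 / (q : ℝ))) := by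
      have h6 := cc_cont (p := p) (q := q) h0 h1 h2
      have h7 := h6.comp h3
      exact h7
    have h5 : Continuous (fun x : ℝ × ℝ => chi x.2) := chi_cont.comp continuous_snd
    exact h5.mul h4
  have hs : Continuous (fun x : ℝ × ℝ => (q : ℝ) * x.2) := by fun_prop
  have e1 : chi (-(1 / 2)) = 0 := chi_zero (by rw [abs_neg, abs_of_pos] <;> norm_num)
  have e2 : chi (1 / 2) = 0 := chi_zero (by rw [abs_of_pos] <;> norm_num)
  have h8 : ∀ r, (fun r y => chi y * cc lam lam' p q r (y / q)) r (-(1 / 2))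
      = (fun r y => chi y * cc lam lam' p q r (y / q)) r (1 / 2) := by
    intro r
    show chi (-(1 / 2)) * cc lam lam' p q r (-(1 / 2) / q)
      = chi (1 / 2) * cc lam lam' p q r (1 / 2 / q)
    rw [e1, e2, zero_mul, zero_mul]
  have h9 := comp_cr (F := fun r y => chi y * cc lam lam' p q r (y / q)) hF h8 hs
  exact h9

theorem jj_per (hq : 1 ≤ q) (r θ : ℝ) : jj lam lam' p q r (θ + 1) = jj lam lam' p q r θ := by
  unfold jj
  rw [cc_per_one hq]
  have : cr (q * (θ + 1)) = cr (q * θ) := by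
    have := cr_add_int (q * θ) q
    push_cast at this
    rw [← this]
    congr 1
    ring
  rw [this]

theorem jj_low {r : ℝ} (h1 : lam' ≤ lam) (h : r ≤ lam') (θ : ℝ) : jj lam lam' p q r θ = 0 := by
  unfold jj
  rw [cc_low h1 h, cc_low h1 h, mul_zero, sub_zero]

theorem jj_near (hq : 1 ≤ q) {r θ : ℝ} (h : |cr θ| ≤ 1 / (8 * (q : ℝ))) :
    jj lam lam' p q r θ = 0 := by
  have hq0 : (0 : ℝ) < q := by positivity
  have h1 : |(q : ℝ) * cr θ| ≤ 1 / 8 := by
    rw [abs_mul, abs_of_pos hq0]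
    calc (q : ℝ) * |cr θ| ≤ q * (1 / (8 * (q : ℝ))) := mul_le_mul_of_nonneg_left h hq0.le
      _ = 1 / 8 := by field_simp
  have h2 : cr (q * θ) = q * cr θ := by
    have h3 : (q : ℝ) * θ = q * cr θ + ((q * round θ : ℤ) : ℝ) := by
      unfold cr
      push_cast
      ring
    rw [h3]
    have := abs_le.1 h1
    exact cr_of_mem _ (by linarith) (by linarith)
  have h4 : cc lam lam' p q r (cr θ) = cc lam lam' p q r θ := by
    have h5 : Function.Periodic (cc lam lam' p q r) 1 := fun x => cc_per_one hq r x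
    have := h5.int_mul (round θ) (cr θ)
    rw [mul_one] at this
    rw [← this]
    congr 1
    unfold cr
    ring
  unfold jj
  rw [h2, chi_one h1, one_mul, mul_div_cancel_left₀ _ hq0.ne', h4, sub_self]

theorem jj_step (hq : 1 ≤ q) (hpq : Nat.Coprime p q) (r θ : ℝ) :
    jj lam lam' p q r (θ + (p : ℝ) / q)
      = sg lam lam' r (θ + (p : ℝ) / q) + jj lam lam' p q r θ + vv lam lam' q r θ := by
  have hq0 : (q : ℝ) ≠ 0 := by positivity
  have h1 : cr (q * (θ + (p : ℝ) / q)) = cr (q * θ) := by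
    have := cr_add_int (q * θ) p
    push_cast at this
    rw [← this]
    congr 1
    field_simp
  have h2 := cc_step (lam := lam) (lam' := lam') hq hpq r θ
  have h3 : vv lam lam' q r (θ + (p : ℝ) / q) = vv lam lam' q r θ := by
    have := (vv_per (lam := lam) (lam' := lam') hq r).nat_mul p θ
    rw [mul_one_div] at this
    exact this
  unfold sh at h2
  rw [h3] at h2
  unfold jj
  rw [h1]
  linarith

end

/-- **COH.** -/
theorem coh : Coh_Stmt := by
  intro lam lam' p q h0 h1 h2 hq hpq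
  refine ⟨vv lam lam' q, jj lam lam' p q, vv_cont h0 h1 h2, jj_cont h0 h1 h2,
    vv_abs hq h0 h1 h2, ?_, ?_, jj_per hq, ?_, ?_, ?_⟩
  · intro r θ
    have hq0 : (q : ℝ) ≠ 0 := by positivity
    have := (vv_per (lam := lam) (lam' := lam') hq r).nat_mul q θ
    rw [mul_one_div, div_self hq0] at this
    exact this
  · intro r θ
    have := (vv_per (lam := lam) (lam' := lam') hq r).nat_mul p θ
    rw [mul_one_div] at this
    exact this
  · exact fun r θ h => ⟨vv_low h1 h θ, jj_low h1 h θ⟩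
  · exact fun r θ h => jj_near hq h
  · intro r θ
    have e : jj lam lam' p q r (θ + (p : ℝ) / q)
        = sg lam lam' r (θ + (p : ℝ) / q) + (jj lam lam' p q r θ + vv lam lam' q r θ) := by
      rw [jj_step hq hpq, add_assoc]
    rw [sg_D h0 h1, e, AddCircle.coe_add, add_assoc]

end Pool.Agent.EvenHomeo.CohM

namespace Pool.Agent.EvenHomeo

theorem coh : Coh_Stmt := CohM.coh

end Pool.Agent.EvenHomeo
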